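import Pool.Agent.H.MP_4681e4_al.C

namespace Pool.Agent.Results.MP_4681e4_al.No

/-- every subgroup of `C` is finitely generated -/
def Slender {G : Type} [Group G] (C : Subgroup G) : Prop := ∀ K : Subgroup G, K ≤ C → K.FG

/-- `G = A *_C B` -/
def IsAmalgam {G : Type} [Group G] (A B C : Subgroup G) : Prop :=
  ∃ h : ∀ i : Bool, C ≤ cond i A B,
    Function.Bijective (Monoid.PushoutI.lift (φ := fun i => Subgroup.inclusion (h i))
      (fun i => (cond i A B).subtype) C.subtype (fun _ => rfl))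

/-- `G` splits as an HNN extension over `C` -/
def IsHNN {G : Type} [Group G] (C : Subgroup G) : Prop :=
  ∃ (H : Type) (_ : Group H) (P Q : Subgroup H) (φ : P ≃* Q) (e : HNNExtension H P Q φ ≃* G),
    P.map (e.toMonoidHom.comp HNNExtension.of) = C

open Pool.Agent.H.MP_4681e4_al in
theorem result :
    (∃ (G : Type) (_ : Group G) (A : Subgroup G) (B C : ℕ → Subgroup G), Group.FG G ∧
      (∀ n, IsAmalgam A (B n) (C n) ∧ C n ≠ A ∧ C n ≠ B n ∧ Slender (C n) ∧ C n < C (n + 1)) ∧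
      C 0 ≠ ⊥ ∧ ¬ ∃ B' C' : Subgroup G, IsAmalgam A B' C' ∧ ∀ n, C' < C n) ∧
    (∃ (G : Type) (_ : Group G) (C : ℕ → Subgroup G), Group.FG G ∧
      (∀ n, IsHNN (C n) ∧ Slender (C n) ∧ C n < C (n + 1)) ∧
      C 0 ≠ ⊥ ∧ ¬ ∃ C' : Subgroup G, IsHNN C' ∧ ∀ n, C' < C n) ∧
    (∃ (G : Type) (_ : Group G) (A : Subgroup G) (B C : ℕ → Subgroup G), Group.FG G ∧
      (∀ n, IsAmalgam A (B n) (C n) ∧ C n ≠ A ∧ C n ≠ B n ∧ Slender (C n) ∧ C (n + 1) < C n) ∧
      ¬ ∃ B' C' : Subgroup G, IsAmalgam A B' C' ∧ ∀ n, C' ≤ C n) ∧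
    (∃ (G : Type) (_ : Group G) (C : ℕ → Subgroup G), Group.FG G ∧
      (∀ n, IsHNN (C n) ∧ Slender (C n) ∧ C (n + 1) < C n) ∧
      ¬ ∃ C' : Subgroup G, IsHNN C' ∧ ∀ n, C' ≤ C n) := by
  have hne : ∀ {H G : Type} [Group H] [Group G] (i : H →* G), Function.Injective i →
      ∀ D : Subgroup H, D ≠ ⊤ → D.map i ≠ i.range := by
    intro H G _ _ i hi D hD e
    apply hD
    rw [MonoidHom.range_eq_map] at e
    exact Subgroup.map_injective hi e
  have hlt : ∀ {H G : Type} [Group H] [Group G] (i : H →* G), Function.Injective i →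
      ∀ D E : Subgroup H, D < E → D.map i < E.map i := by
    intro H G _ _ i hi D E h
    exact lt_of_le_of_ne (Subgroup.map_mono h.le) (fun e => h.ne (Subgroup.map_injective hi e))
  have hbot : ∀ {G : Type} [Group G] (i : HA →* G), Function.Injective i →
      (DA 0).map i ≠ ⊥ := by
    intro G _ i hi e
    rw [Subgroup.map_eq_bot_iff_of_injective _ hi] at e
    have : dataA.s ∈ DA 0 := ⟨(EE 0).one_mem, trivial⟩
    rw [e, Subgroup.mem_bot] at this
    apply dataA.hs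
    rw [this, map_one]
  refine ⟨?_, ?_, ?_, ?_⟩
  · have hB := fun n => (dataA.conj n).elim fun a ha => split1 dataA.s (dataA.D n) a ha
    choose B hB1 hB2 using hB
    refine ⟨G1 dataA.s, inferInstance, (i1 dataA.s).range, B,
      fun n => (dataA.D n).map (i1 dataA.s), fg1 _ dataA.fg, fun n =>
      ⟨hB1 n, hne _ (i1_inj _) _ (dataA.ne n), hB2 n, slender_map _ _ (dataA.slender n),
        hlt _ (i1_inj _) _ _ (DA_lt n)⟩, hbot _ (i1_inj _), ?_⟩
    rintro ⟨B', C', h1, h2⟩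
    exact nosplit1 dataA.s dataA.w dataA.hs B' C'
      (fun h hh => asc_key _ (i1_inj _) C' (h2 0) h hh) h1
  · refine ⟨G2 dataA.s, inferInstance, fun n => (dataA.D n).map (i2 dataA.s), fg2 _ dataA.fg,
      fun n => ⟨(dataA.conj n).elim fun a ha => split2 dataA.s (dataA.D n) a ha,
        slender_map _ _ (dataA.slender n), hlt _ (i2_inj _) _ _ (DA_lt n)⟩,
      hbot _ (i2_inj _), ?_⟩
    rintro ⟨C', h1, h2⟩
    exact nosplit2 dataA.s dataA.w dataA.hs dataA.hZ C'
      ((h2 0).le.trans (Subgroup.map_le_range _ _))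
      (fun h hh => asc_key _ (i2_inj _) C' (h2 0) h hh) h1
  · have hB := fun n => (dataD.conj n).elim fun a ha => split1 dataD.s (dataD.D n) a ha
    choose B hB1 hB2 using hB
    refine ⟨G1 dataD.s, inferInstance, (i1 dataD.s).range, B,
      fun n => (dataD.D n).map (i1 dataD.s), fg1 _ dataD.fg, fun n =>
      ⟨hB1 n, hne _ (i1_inj _) _ (dataD.ne n), hB2 n, slender_map _ _ (dataD.slender n),
        hlt _ (i1_inj _) _ _ (DD_lt n)⟩, ?_⟩
    rintro ⟨B', C', h1, h2⟩
    refine nosplit1 dataD.s dataD.w dataD.hs B' C' (fun h hh => DD_inter h fun n => ?_) h1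
    obtain ⟨d, hd, e⟩ := h2 n hh
    rw [← i1_inj _ e]; exact hd
  · refine ⟨G2 dataD.s, inferInstance, fun n => (dataD.D n).map (i2 dataD.s), fg2 _ dataD.fg,
      fun n => ⟨(dataD.conj n).elim fun a ha => split2 dataD.s (dataD.D n) a ha,
        slender_map _ _ (dataD.slender n), hlt _ (i2_inj _) _ _ (DD_lt n)⟩, ?_⟩
    rintro ⟨C', h1, h2⟩
    refine nosplit2 dataD.s dataD.w dataD.hs dataD.hZ C'
      ((h2 0).trans (Subgroup.map_le_range _ _)) (fun h hh => DD_inter h fun n => ?_) h1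
    obtain ⟨d, hd, e⟩ := h2 n hh
    rw [← i2_inj _ e]; exact hd

end Pool.Agent.Results.MP_4681e4_al.No
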